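import Pool.Agent.Y162.CV.PP

/-!
Finite convolution operators on `ℓ^p` of a group containing a free group: the convolution by a
finite set and by its inverse can have very different norms.
-/

set_option autoImplicit false

namespace Pool.Agent.Y162.CV

set_option linter.unusedSectionVars false

open scoped ENNReal
open Finset

variable {G : Type} [Group G]

/-- Hölder for `tsum`. -/
lemma holder_tsum {α : Type} {p q : ℝ} (hpq : p.HolderConjugate q) (f g : α → ℝ≥0∞) :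
    ∑' i, f i * g i ≤ (∑' i, f i ^ p) ^ (1 / p) * (∑' i, g i ^ q) ^ (1 / q) := by
  rw [ENNReal.tsum_eq_iSup_sum (f := fun i => f i * g i)]
  refine iSup_le fun s => (ENNReal.inner_le_Lp_mul_Lq s f g hpq).trans ?_
  have hp : 0 ≤ 1 / p := by have := hpq.pos; positivity
  have hq : 0 ≤ 1 / q := by have := hpq.symm.pos; positivity
  exact mul_le_mul' (ENNReal.rpow_le_rpow (ENNReal.sum_le_tsum s) hp)
    (ENNReal.rpow_le_rpow (ENNReal.sum_le_tsum s) hq)

/-- Jensen for `tsum`. -/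
lemma jensen_tsum {α : Type} {p : ℝ} (hp : 1 ≤ p) (w y : α → ℝ≥0∞) (hw : ∑' i, w i ≤ 1) :
    (∑' i, w i * y i) ^ p ≤ ∑' i, w i * y i ^ p := by
  have hp0 : 0 < p := by linarith
  have h1 : ∑' i, w i * y i ≤ (∑' i, w i * y i ^ p) ^ p⁻¹ := by
    rw [ENNReal.tsum_eq_iSup_sum (f := fun i => w i * y i)]
    refine iSup_le fun s => (ENNReal.inner_le_weight_mul_Lp_of_nonneg s hp w y).trans ?_
    have h2 : (∑ i ∈ s, w i) ^ (1 - p⁻¹) ≤ 1 := by
      apply ENNReal.rpow_le_one ((ENNReal.sum_le_tsum s).trans hw)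
      have : p⁻¹ ≤ 1 := inv_le_one_of_one_le₀ hp
      linarith
    calc _ ≤ 1 * (∑' i, w i * y i ^ p) ^ p⁻¹ :=
          mul_le_mul' h2 (ENNReal.rpow_le_rpow (ENNReal.sum_le_tsum s) (by positivity))
      _ = _ := one_mul _
  calc (∑' i, w i * y i) ^ p ≤ ((∑' i, w i * y i ^ p) ^ p⁻¹) ^ p := ENNReal.rpow_le_rpow h1 hp0.le
    _ = _ := by rw [← ENNReal.rpow_mul, inv_mul_cancel₀ hp0.ne', ENNReal.rpow_one]

def Nice (η : G → ℝ≥0∞) : Prop := η.support.Finite ∧ ∀ g, η g ≠ ∞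

noncomputable def T (E : Finset G) (η : G → ℝ≥0∞) (g : G) : ℝ≥0∞ := ∑ u ∈ E, η (u * g)

noncomputable def T' (E : Finset G) (η : G → ℝ≥0∞) (g : G) : ℝ≥0∞ := ∑ u ∈ E, η (u⁻¹ * g)

def BdS (S : (G → ℝ≥0∞) → (G → ℝ≥0∞)) (p : ℝ) (K : ℝ≥0∞) : Prop :=
  ∀ η, Nice η → ∑' g, (S η g) ^ p ≤ K * ∑' g, η g ^ p

lemma nice_rpow {η : G → ℝ≥0∞} (h : Nice η) {r : ℝ} (hr : 0 < r) : Nice (fun g => η g ^ r) := by
  refine ⟨h.1.subset ?_, fun g => ENNReal.rpow_ne_top_of_nonneg hr.le (h.2 g)⟩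
  intro g hg hg2
  apply hg
  simp only [hg2]
  exact ENNReal.zero_rpow_of_pos hr

lemma nice_sum {ι : Type} (E : Finset ι) (e : ι → G) {η : G → ℝ≥0∞} (h : Nice η) :
    Nice (fun g => ∑ u ∈ E, η (e u * g)) := by
  classical
  refine ⟨?_, fun g => ?_⟩
  · refine ((E.finite_toSet.biUnion fun u _ => h.1.image (fun v => (e u)⁻¹ * v))).subset ?_
    intro g hg
    have h1 : ∑ u ∈ E, η (e u * g) ≠ 0 := hg
    obtain ⟨u, hu, hu2⟩ := Finset.exists_ne_zero_of_sum_ne_zero h1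
    simp only [Set.mem_iUnion]
    exact ⟨u, hu, e u * g, hu2, by simp⟩
  · exact (ENNReal.sum_lt_top.mpr fun u _ => (h.2 _).lt_top).ne

lemma nice_T (E : Finset G) {η : G → ℝ≥0∞} (h : Nice η) : Nice (T E η) := nice_sum E (fun u => u) h
lemma nice_T' (E : Finset G) {η : G → ℝ≥0∞} (h : Nice η) : Nice (T' E η) :=
  nice_sum E (fun u => u⁻¹) h

lemma tsum_ne_top {η : G → ℝ≥0∞} (h : Nice η) : ∑' g, η g ≠ ∞ := by
  rw [tsum_eq_sum (s := h.1.toFinset) (by
    intro b hb; by_contra h3; exact hb (by simpa using h3))]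
  exact (ENNReal.sum_lt_top.mpr fun u _ => (h.2 _).lt_top).ne

lemma tsum_shift (u : G) (η : G → ℝ≥0∞) : ∑' g, η (u * g) = ∑' g, η g :=
  (Equiv.mulLeft u).tsum_eq η

lemma adj (E : Finset G) (η ζ : G → ℝ≥0∞) : ∑' g, T E η g * ζ g = ∑' g, η g * T' E ζ g := by
  simp only [T, T', Finset.sum_mul, Finset.mul_sum]
  rw [Summable.tsum_finsetSum (fun _ _ => ENNReal.summable),
    Summable.tsum_finsetSum (fun _ _ => ENNReal.summable)]
  refine Finset.sum_congr rfl fun u _ => ?_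
  rw [← tsum_shift u (fun g => η g * ζ (u⁻¹ * g))]
  simp

lemma dual_abs {S S' : (G → ℝ≥0∞) → (G → ℝ≥0∞)} {p q : ℝ} (hpq : p.HolderConjugate q)
    (hadj : ∀ η ζ, ∑' g, S η g * ζ g = ∑' g, η g * S' ζ g) (hn : ∀ η, Nice η → Nice (S' η))
    {K : ℝ≥0∞} (hS : BdS S p K) : BdS S' q (K ^ (q / p)) := by
  intro η hη
  have hp := hpq.pos
  have hq := hpq.symm.pos
  have hq1 : 0 < q - 1 := hpq.symm.sub_one_pos
  set L := ∑' g, (S' η g) ^ q with hL
  have hLtop : L ≠ ∞ := tsum_ne_top (nice_rpow (hn η hη) hq)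
  by_cases hL0 : L = 0
  · rw [hL0]; exact zero_le
  set ζ : G → ℝ≥0∞ := fun g => (S' η g) ^ (q - 1) with hζ
  have hζn : Nice ζ := nice_rpow (hn η hη) hq1
  have e1 : L = ∑' g, S ζ g * η g := by
    rw [hadj, hL]
    refine tsum_congr fun g => ?_
    rw [hζ]
    simp only
    by_cases h0 : S' η g = 0
    · rw [h0, mul_zero, ENNReal.zero_rpow_of_pos hq]
    · have h1 := (hn η hη).2 g
      conv_rhs => rw [← ENNReal.rpow_one (S' η g)]
      rw [← ENNReal.rpow_mul, one_mul, ← ENNReal.rpow_add _ _ h0 h1]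
      congr 1; ring
  have e2 : ∑' g, ζ g ^ p = L := by
    rw [hL]
    refine tsum_congr fun g => ?_
    rw [hζ]
    simp only
    rw [← ENNReal.rpow_mul]
    congr 1
    have := hpq.symm.sub_one_mul_conj
    linarith
  have e3 : L ≤ (K * L) ^ (1 / p) * (∑' g, η g ^ q) ^ (1 / q) := by
    conv_lhs => rw [e1]
    refine (holder_tsum hpq _ _).trans ?_
    refine mul_le_mul' (ENNReal.rpow_le_rpow ?_ (by positivity)) le_rfl
    have := hS ζ hζn
    rwa [e2] at this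
  rw [ENNReal.mul_rpow_of_nonneg _ _ (by positivity : (0:ℝ) ≤ 1 / p)] at e3
  have e4 : L ^ (1 / q) ≤ K ^ (1 / p) * (∑' g, η g ^ q) ^ (1 / q) := by
    have h1 : L = L ^ (1 / p) * L ^ (1 / q) := by
      rw [← ENNReal.rpow_add _ _ hL0 hLtop]
      have : 1 / p + 1 / q = 1 := by
        have := hpq.inv_add_inv_eq_one
        simpa [one_div] using this
      rw [this, ENNReal.rpow_one]
    have h2 : L ^ (1 / p) ≠ 0 := by
      simp [ENNReal.rpow_eq_zero_iff, hL0, hLtop]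
    have h3 : L ^ (1 / p) ≠ ∞ := ENNReal.rpow_ne_top_of_nonneg (by positivity) hLtop
    have h4 : L ^ (1 / p) * L ^ (1 / q) ≤
        L ^ (1 / p) * (K ^ (1 / p) * (∑' g, η g ^ q) ^ (1 / q)) := by
      rw [← h1]
      calc L ≤ _ := e3
        _ = _ := by ring
    exact (ENNReal.mul_le_mul_iff_right h2 h3).mp h4
  calc L = (L ^ (1 / q)) ^ q := by
        rw [← ENNReal.rpow_mul, one_div_mul_cancel hq.ne', ENNReal.rpow_one]
    _ ≤ (K ^ (1 / p) * (∑' g, η g ^ q) ^ (1 / q)) ^ q := ENNReal.rpow_le_rpow e4 hq.le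
    _ = _ := by
      rw [ENNReal.mul_rpow_of_nonneg _ _ hq.le, ← ENNReal.rpow_mul, ← ENNReal.rpow_mul,
        one_div_mul_cancel hq.ne', ENNReal.rpow_one]
      congr 2
      field_simp

lemma dual1 {p q : ℝ} (hpq : p.HolderConjugate q) (E : Finset G) {K : ℝ≥0∞}
    (h : BdS (T E) p K) : BdS (T' E) q (K ^ (q / p)) :=
  dual_abs hpq (adj E) (fun _ h => nice_T' E h) h

lemma adj' (E : Finset G) (η ζ : G → ℝ≥0∞) : ∑' g, T' E η g * ζ g = ∑' g, η g * T E ζ g := by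
  have := adj E ζ η
  simp only [mul_comm] at this ⊢
  exact this.symm

lemma dual2 {p q : ℝ} (hpq : p.HolderConjugate q) (E : Finset G) {K : ℝ≥0∞}
    (h : BdS (T' E) p K) : BdS (T E) q (K ^ (q / p)) :=
  dual_abs hpq (adj' E) (fun _ h => nice_T E h) h

/-- at most one nonzero term -/
lemma sum_rpow_of_unique {ι : Type} (S : Finset ι) (v : ι → ℝ≥0∞) {p : ℝ} (hp : 0 < p)
    (h : ∀ s ∈ S, ∀ t ∈ S, v s ≠ 0 → v t ≠ 0 → s = t) : (∑ s ∈ S, v s) ^ p ≤ ∑ s ∈ S, v s ^ p := by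
  by_cases h0 : ∑ s ∈ S, v s = 0
  · rw [h0, ENNReal.zero_rpow_of_pos hp]; exact zero_le
  obtain ⟨s, hs, hs2⟩ := Finset.exists_ne_zero_of_sum_ne_zero h0
  rw [Finset.sum_eq_single_of_mem s hs (fun t ht hts => by
    by_contra h3; exact hts (h t ht s hs h3 hs2))]
  exact Finset.single_le_sum (f := fun s => v s ^ p) (fun _ _ => zero_le) hs

end Pool.Agent.Y162.CV
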