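import Pool.Agent.Y162.CV.Bd

/-!
The two estimates: convolution by the inverse of `{x_j a^i}` is small, convolution by the set is
large.
-/

set_option autoImplicit false
set_option linter.unusedSectionVars false

namespace Pool.Agent.Y162.CV

open scoped ENNReal
open Finset

variable {G : Type} [Group G]

/-- the points `x_j a^i` -/
def PP.e (P : PP G) (s : ℕ × ℕ) : G := P.x s.2 * P.a ^ s.1

lemma PP.e_inj (P : PP G) : Function.Injective P.e := by
  rintro ⟨i, j⟩ ⟨i', j'⟩ h
  simp only [PP.e] at h
  have h1 : P.x j * (P.a ^ i * ((P.x j * P.a ^ i)⁻¹ * P.z)) = P.z := by group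
  have h2 : P.x j' * (P.a ^ i' * ((P.x j * P.a ^ i)⁻¹ * P.z)) = P.z := by rw [h]; group
  have := P.uniq ((P.x j * P.a ^ i)⁻¹ * P.z) j j' i i' (by rw [h1]; exact P.hz j)
    (by rw [h2]; exact P.hz j')
  exact Prod.ext this.1 this.2

def PP.emb (P : PP G) : ℕ × ℕ ↪ G := ⟨P.e, P.e_inj⟩

/-- the finite set `{x_j a^i : i < n, j < M}` -/
def PP.E (P : PP G) (n M : ℕ) : Finset G := (range n ×ˢ range M).map P.emb

lemma PP.T_eq (P : PP G) (n M : ℕ) (η : G → ℝ≥0∞) (g : G) :
    T (P.E n M) η g = ∑ s ∈ range n ×ˢ range M, η (P.e s * g) := by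
  simp [T, PP.E, PP.emb]

lemma PP.T'_eq (P : PP G) (n M : ℕ) (η : G → ℝ≥0∞) (g : G) :
    T' (P.E n M) η g = ∑ s ∈ range n ×ˢ range M, η ((P.e s)⁻¹ * g) := by
  simp [T', PP.E, PP.emb]

open Classical in
/-- Upper estimate. -/
lemma PP.upper (P : PP G) (n M : ℕ) {p : ℝ} (hp : 1 ≤ p) :
    BdS (T (P.E n M)) p
      ((2:ℝ≥0∞) ^ (p - 1) * (((n * M : ℕ) : ℝ≥0∞) + ((n * M : ℕ) : ℝ≥0∞) ^ (p - 1) * n)) := by
  intro η _
  have hp0 : 0 < p := by linarith
  set S := range n ×ˢ range M with hS
  have hcard : (#S : ℝ≥0∞) = ((n * M : ℕ) : ℝ≥0∞) := by simp [hS]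
  set N := ∑' g, η g ^ p with hN
  let A : G → ℝ≥0∞ := fun g => ∑ s ∈ S, if P.e s * g ∈ P.X s.2 then 0 else η (P.e s * g)
  let B : G → ℝ≥0∞ := fun g => ∑ s ∈ S, if P.e s * g ∈ P.X s.2 then η (P.e s * g) else 0
  have hT : ∀ g, T (P.E n M) η g = A g + B g := by
    intro g
    rw [PP.T_eq]
    simp only [A, B]
    rw [← Finset.sum_add_distrib]
    refine Finset.sum_congr rfl fun s _ => ?_
    split_ifs <;> simp
  have hA : ∑' g, A g ^ p ≤ ((n * M : ℕ) : ℝ≥0∞) * N := by
    calc ∑' g, A g ^ p ≤ ∑' g, ∑ s ∈ S, η (P.e s * g) ^ p := by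
          refine ENNReal.tsum_le_tsum fun g => ?_
          refine (sum_rpow_of_unique S _ hp0 ?_).trans ?_
          · intro s _ t _ h1 h2
            have h1' : P.e s * g ∉ P.X s.2 := by
              intro h; exact h1 (by simp [h])
            have h2' : P.e t * g ∉ P.X t.2 := by
              intro h; exact h2 (by simp [h])
            simp only [PP.e, mul_assoc] at h1' h2'
            have := P.uniq g s.2 t.2 s.1 t.1 h1' h2'
            exact Prod.ext this.1 this.2
          · refine Finset.sum_le_sum fun s _ => ?_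
            refine ENNReal.rpow_le_rpow ?_ hp0.le
            split_ifs <;> simp
      _ = ∑ s ∈ S, N := by
          rw [Summable.tsum_finsetSum (fun _ _ => ENNReal.summable)]
          refine Finset.sum_congr rfl fun s _ => ?_
          exact tsum_shift (P.e s) (fun g => η g ^ p)
      _ = _ := by rw [Finset.sum_const, nsmul_eq_mul, hcard]
  have hB : ∑' g, B g ^ p ≤ (((n * M : ℕ) : ℝ≥0∞) ^ (p - 1) * n) * N := by
    calc ∑' g, B g ^ p ≤ ∑' g, ((n * M : ℕ) : ℝ≥0∞) ^ (p - 1) *
          ∑ s ∈ S, (if P.e s * g ∈ P.X s.2 then η (P.e s * g) ^ p else 0) := by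
          refine ENNReal.tsum_le_tsum fun g => ?_
          refine (ENNReal.rpow_sum_le_const_mul_sum_rpow S _ hp).trans ?_
          rw [hcard]
          refine mul_le_mul' le_rfl (Finset.sum_le_sum fun s _ => ?_)
          split_ifs
          · exact le_rfl
          · rw [ENNReal.zero_rpow_of_pos hp0]
      _ = ((n * M : ℕ) : ℝ≥0∞) ^ (p - 1) *
          ∑ s ∈ S, ∑' g, (if g ∈ P.X s.2 then η g ^ p else 0) := by
          rw [ENNReal.tsum_mul_left, Summable.tsum_finsetSum (fun _ _ => ENNReal.summable)]
          congr 1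
          refine Finset.sum_congr rfl fun s _ => ?_
          exact tsum_shift (P.e s) (fun g => if g ∈ P.X s.2 then η g ^ p else 0)
      _ ≤ ((n * M : ℕ) : ℝ≥0∞) ^ (p - 1) * (n * N) := by
          refine mul_le_mul' le_rfl ?_
          rw [hS, Finset.sum_product]
          simp only
          refine (Finset.sum_le_card_nsmul (range n) _ N ?_).trans (by simp)
          intro i _
          rw [← Summable.tsum_finsetSum (fun _ _ => ENNReal.summable)]
          refine ENNReal.tsum_le_tsum fun g => ?_
          by_cases h : ∃ j ∈ range M, g ∈ P.X j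
          · obtain ⟨j, hj, hj2⟩ := h
            rw [Finset.sum_eq_single_of_mem j hj]
            · simp [hj2]
            · intro j' _ hne
              have : g ∉ P.X j' := fun h => hne (P.disj j' j g h hj2)
              simp [this]
          · rw [Finset.sum_eq_zero]
            · exact zero_le
            · intro j hj
              have : g ∉ P.X j := fun h' => h ⟨j, hj, h'⟩
              simp [this]
      _ = _ := by ring
  calc ∑' g, T (P.E n M) η g ^ p ≤ ∑' g, (2:ℝ≥0∞) ^ (p - 1) * (A g ^ p + B g ^ p) := by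
        refine ENNReal.tsum_le_tsum fun g => ?_
        rw [hT]
        exact ENNReal.rpow_add_le_mul_rpow_add_rpow _ _ hp
    _ = (2:ℝ≥0∞) ^ (p - 1) * (∑' g, A g ^ p + ∑' g, B g ^ p) := by
        rw [ENNReal.tsum_mul_left, ENNReal.tsum_add]
    _ ≤ (2:ℝ≥0∞) ^ (p - 1) * (((n * M : ℕ) : ℝ≥0∞) * N +
        (((n * M : ℕ) : ℝ≥0∞) ^ (p - 1) * n) * N) := by gcongr
    _ = _ := by ring

lemma PP.a_inj (P : PP G) : Function.Injective (fun i : ℕ => P.a ^ i) := by
  intro i i' h
  simp only at h
  have : P.e (i, 0) = P.e (i', 0) := by simp [PP.e, h]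
  have := P.e_inj this
  exact (Prod.ext_iff.mp this).1

open Classical in
/-- Lower estimate. -/
lemma PP.lower (P : PP G) (n M : ℕ) {p : ℝ} (hp : 0 < p) (K : ℝ≥0∞)
    (h : BdS (T' (P.E n M)) p K) :
    ((n * M : ℕ) : ℝ≥0∞) * (n : ℝ≥0∞) ^ p ≤ K * (2 * n : ℕ) := by
  let L : Finset G := (range (2 * n)).image (fun i => P.a ^ i)
  let η : G → ℝ≥0∞ := fun g => if g ∈ L then 1 else 0
  have hη : Nice η := by
    refine ⟨(L.finite_toSet).subset ?_, ?_⟩
    · intro g hg
      by_contra h1
      exact hg (by simp only [η]; rw [if_neg]; exact h1)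
    · intro g
      simp only [η]
      split_ifs <;> simp
  have h1 := h η hη
  have h2 : ∑' g, η g ^ p ≤ (2 * n : ℕ) := by
    rw [tsum_eq_sum (s := L)]
    · calc ∑ g ∈ L, η g ^ p = ∑ g ∈ L, 1 := by
            refine Finset.sum_congr rfl fun g hg => ?_
            simp [η, hg]
        _ = (#L : ℝ≥0∞) := by simp
        _ ≤ (2 * n : ℕ) := by
            have : #L ≤ 2 * n := by
              calc _ ≤ #(range (2 * n)) := Finset.card_image_le
                _ = _ := Finset.card_range _
            exact_mod_cast this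
    · intro g hg
      simp only [η, if_neg hg]
      exact ENNReal.zero_rpow_of_pos hp
  refine le_trans ?_ (h1.trans (mul_le_mul' le_rfl h2))
  -- lower bound of the left side
  let Q : Finset G := ((range n ×ˢ range M).image (fun s => P.e (s.1 + n, s.2)))
  have hQ : #Q = n * M := by
    rw [Finset.card_image_of_injective]
    · simp
    · intro s t hst
      have := P.e_inj hst
      simp only [Prod.mk.injEq] at this
      exact Prod.ext (by omega) this.2
  calc ((n * M : ℕ) : ℝ≥0∞) * (n : ℝ≥0∞) ^ p = ∑ g ∈ Q, (n : ℝ≥0∞) ^ p := by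
        rw [Finset.sum_const, hQ, nsmul_eq_mul]
    _ ≤ ∑ g ∈ Q, T' (P.E n M) η g ^ p := by
        refine Finset.sum_le_sum fun g hg => ?_
        refine ENNReal.rpow_le_rpow ?_ hp.le
        simp only [Q, Finset.mem_image, Finset.mem_product, Finset.mem_range] at hg
        obtain ⟨⟨m, j⟩, ⟨hm, hj⟩, rfl⟩ := hg
        simp only at hm hj ⊢
        rw [PP.T'_eq]
        calc (n : ℝ≥0∞) = ∑ s ∈ (range n).image (fun i => (i, j)), (1:ℝ≥0∞) := by
              rw [Finset.sum_const, Finset.card_image_of_injective, Finset.card_range]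
              · simp
              · intro a b hab
                simpa using hab
          _ ≤ ∑ s ∈ (range n).image (fun i => (i, j)), η ((P.e s)⁻¹ * P.e (m + n, j)) := by
              refine Finset.sum_le_sum fun s hs => ?_
              simp only [Finset.mem_image, Finset.mem_range] at hs
              obtain ⟨i, hi, rfl⟩ := hs
              have : (P.e (i, j))⁻¹ * P.e (m + n, j) = P.a ^ (m + n - i) := by
                simp only [PP.e, mul_inv_rev]
                rw [mul_assoc, inv_mul_cancel_left]
                rw [inv_mul_eq_iff_eq_mul, ← pow_add]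
                congr 1
                omega
              rw [this]
              have hm' : P.a ^ (m + n - i) ∈ L := by
                simp only [L, Finset.mem_image, Finset.mem_range]
                exact ⟨m + n - i, by omega, rfl⟩
              simp [η, hm']
          _ ≤ _ := by
              refine Finset.sum_le_sum_of_subset ?_
              intro s hs
              simp only [Finset.mem_image, Finset.mem_range] at hs
              obtain ⟨i, hi, rfl⟩ := hs
              simp [hi, hj]
    _ ≤ _ := ENNReal.sum_le_tsum Q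

end Pool.Agent.Y162.CV
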