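import Pool.Agent.Y162.CV.Est

/-!
Gluing the finite estimates to a single positive function, and translation to complex convolvers.
-/

set_option autoImplicit false
set_option linter.unusedSectionVars false

namespace Pool.Agent.Y162.CV

open scoped ENNReal
open Finset

variable {G : Type} [Group G]

lemma bds_mono {S : (G → ℝ≥0∞) → (G → ℝ≥0∞)} {p : ℝ} {K K' : ℝ≥0∞} (h : K ≤ K')
    (hS : BdS S p K) : BdS S p K' := fun η hη => (hS η hη).trans (mul_le_mul' h le_rfl)

/-- the arithmetic behind the choice of `n` and `M` -/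
lemma choose_nM {p : ℝ} (hp : 1 < p) (hp2 : p < 2) (R : ℝ) (hR : 0 ≤ R) :
    ∃ n M : ℕ, 0 < n ∧ 0 < M ∧
      R * ((2:ℝ) ^ (p - 1) * (((n * M : ℕ) : ℝ) + ((n * M : ℕ) : ℝ) ^ (p - 1) * n)) * (2 * n : ℕ) <
        ((n * M : ℕ) : ℝ) * (n : ℝ) ^ p := by
  have h1 : Filter.Tendsto (fun n : ℕ => (n : ℝ) ^ (p - 1)) Filter.atTop Filter.atTop :=
    (tendsto_rpow_atTop (by linarith)).comp tendsto_natCast_atTop_atTop
  have h2 : Filter.Tendsto (fun n : ℕ => (n : ℝ) ^ (2 - p)) Filter.atTop Filter.atTop :=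
    (tendsto_rpow_atTop (by linarith)).comp tendsto_natCast_atTop_atTop
  obtain ⟨n, hn, hn1⟩ := ((h1.eventually_gt_atTop ((2:ℝ) ^ (p + 1) * R)).and
    (Filter.eventually_gt_atTop 0)).exists
  obtain ⟨M, hM, hM1⟩ := ((h2.eventually_gt_atTop ((2:ℝ) ^ (p + 1) * R)).and
    (Filter.eventually_gt_atTop 0)).exists
  refine ⟨n, M, hn1, hM1, ?_⟩
  have hn0 : (0:ℝ) < n := by exact_mod_cast hn1
  have hM0 : (0:ℝ) < M := by exact_mod_cast hM1
  have e1 : (2:ℝ) ^ (p + 1) = 4 * (2:ℝ) ^ (p - 1) := by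
    rw [show p + 1 = (p - 1) + 2 by ring, Real.rpow_add (by norm_num)]
    norm_num; ring
  have e2 : (n : ℝ) ^ p = (n:ℝ) ^ (p - 1) * n := by
    rw [← Real.rpow_add_one hn0.ne']; congr 1; ring
  have e3 : (M : ℝ) ^ (p - 1) * (M:ℝ) ^ (2 - p) = M := by
    rw [← Real.rpow_add hM0]
    rw [show p - 1 + (2 - p) = 1 by ring, Real.rpow_one]
  push_cast
  rw [Real.mul_rpow hn0.le hM0.le, e2]
  rw [e1] at hn hM
  set a := (n:ℝ) ^ (p - 1) with ha
  set b := (M:ℝ) ^ (p - 1) with hb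
  set c := (M:ℝ) ^ (2 - p) with hc
  set t := (2:ℝ) ^ (p - 1) with ht
  have ha0 : 0 < a := Real.rpow_pos_of_pos hn0 _
  have hb0 : 0 < b := Real.rpow_pos_of_pos hM0 _
  have hc0 : 0 < c := Real.rpow_pos_of_pos hM0 _
  have ht0 : 0 < t := Real.rpow_pos_of_pos (by norm_num) _
  -- goal : R * (t * (n*M + a*b*n)) * (2*n) < n*M*(a*n)
  have k1 : R * t * (n * M) * (2 * n) ≤ (n * M * (a * n)) / 2 := by
    have : (4 * t * R) * (n * M * n) ≤ a * (n * M * n) :=
      mul_le_mul_of_nonneg_right hn.le (by positivity)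
    nlinarith
  have k2 : R * t * (a * b * n) * (2 * n) < (n * M * (a * n)) / 2 := by
    have : (4 * t * R) * (a * b * n * n) < c * (a * b * n * n) :=
      mul_lt_mul_of_pos_right hM (by positivity)
    have e4 : c * (a * b * n * n) = M * (a * n * n) := by rw [← e3]; ring
    nlinarith
  nlinarith

/-- asymmetric finite sets, `1 < p < 2` -/
lemma asym_small (P : PP G) {p : ℝ} (hp : 1 < p) (hp2 : p < 2) (R : ℕ) :
    ∃ (E : Finset G) (K : ℝ≥0∞), 1 ≤ K ∧ K ≠ ∞ ∧ BdS (T E) p K ∧ ¬ BdS (T' E) p (R * K) := by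
  obtain ⟨n, M, hn, hM, h⟩ := choose_nM hp hp2 (R : ℝ) (by positivity)
  have hnM : 1 ≤ n * M := Nat.one_le_iff_ne_zero.mpr (by positivity)
  refine ⟨P.E n M, _, ?_, ?_, P.upper n M hp.le, ?_⟩
  · calc (1:ℝ≥0∞) = 1 * 1 := (one_mul 1).symm
      _ ≤ _ := by
        refine mul_le_mul' (ENNReal.one_le_rpow (by norm_num) (by linarith)) ?_
        refine le_add_right ?_
        exact_mod_cast hnM
  · refine ENNReal.mul_ne_top (ENNReal.rpow_ne_top_of_nonneg (by linarith) (by norm_num)) ?_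
    refine ENNReal.add_ne_top.mpr ⟨ENNReal.natCast_ne_top _, ?_⟩
    exact ENNReal.mul_ne_top (ENNReal.rpow_ne_top_of_nonneg (by linarith)
      (ENNReal.natCast_ne_top _)) (ENNReal.natCast_ne_top _)
  · intro hbd
    have h1 := P.lower n M (by linarith : 0 < p) _ hbd
    have h2 := ENNReal.toReal_mono ?_ h1
    · simp only [ENNReal.toReal_mul, ENNReal.toReal_natCast, ← ENNReal.toReal_rpow] at h2
      rw [ENNReal.toReal_add (ENNReal.natCast_ne_top _)] at h2
      · simp only [ENNReal.toReal_mul, ENNReal.toReal_natCast, ← ENNReal.toReal_rpow,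
          ENNReal.toReal_ofNat] at h2
        exact absurd h2 (not_le.mpr h)
      · exact ENNReal.mul_ne_top (ENNReal.rpow_ne_top_of_nonneg (by linarith)
          (ENNReal.natCast_ne_top _)) (ENNReal.natCast_ne_top _)
    · refine ENNReal.mul_ne_top (ENNReal.mul_ne_top (ENNReal.natCast_ne_top _) ?_)
        (ENNReal.natCast_ne_top _)
      refine ENNReal.mul_ne_top (ENNReal.rpow_ne_top_of_nonneg (by linarith) (by norm_num)) ?_
      refine ENNReal.add_ne_top.mpr ⟨ENNReal.natCast_ne_top _, ?_⟩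
      exact ENNReal.mul_ne_top (ENNReal.rpow_ne_top_of_nonneg (by linarith)
        (ENNReal.natCast_ne_top _)) (ENNReal.natCast_ne_top _)

lemma T_inv (E : Finset G) (η : G → ℝ≥0∞) :
    T (E.map (Equiv.inv G).toEmbedding) η = T' E η := by
  funext g; simp [T, T']

lemma T'_inv (E : Finset G) (η : G → ℝ≥0∞) :
    T' (E.map (Equiv.inv G).toEmbedding) η = T E η := by
  funext g; simp [T, T']

/-- asymmetric finite sets, all exponents -/
lemma asym (P : PP G) {p : ℝ} (hp : 1 < p) (hp2 : p ≠ 2) (R : ℕ) :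
    ∃ (E : Finset G) (K : ℝ≥0∞), 1 ≤ K ∧ K ≠ ∞ ∧ BdS (T E) p K ∧ ¬ BdS (T' E) p (R * K) := by
  rcases lt_or_gt_of_ne hp2 with h | h
  · exact asym_small P hp h R
  set q : ℝ := p / (p - 1) with hq
  have hpq : p.HolderConjugate q := .conjExponent hp
  have hqp := hpq.symm
  have hp0 : 0 < p := by linarith
  have hq0 : 0 < q := hqp.pos
  have hq1 : 1 < q := hqp.lt
  have hq2 : q < 2 := by
    rw [hq, div_lt_iff₀ (by linarith)]; linarith
  obtain ⟨R', hR'⟩ := exists_nat_ge ((R : ℝ) ^ (q / p))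
  obtain ⟨E, K, hK1, hK, hE, hE'⟩ := asym_small P hq1 hq2 R'
  refine ⟨E.map (Equiv.inv G).toEmbedding, K ^ (p / q), ?_, ?_, ?_, ?_⟩
  · exact ENNReal.one_le_rpow hK1 (by positivity)
  · exact ENNReal.rpow_ne_top_of_nonneg (by positivity) hK
  · have := dual1 hqp E hE
    intro η hη
    rw [T_inv]
    exact this η hη
  · intro hbd
    apply hE'
    have h1 : BdS (T E) p (R * K ^ (p / q)) := by
      intro η hη
      have := hbd η hη
      rwa [T'_inv] at this
    have h2 := dual1 hpq E h1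
    refine bds_mono ?_ h2
    rw [ENNReal.mul_rpow_of_nonneg _ _ (by positivity), ← ENNReal.rpow_mul]
    have e : p / q * (q / p) = 1 := by field_simp
    rw [e, ENNReal.rpow_one]
    refine mul_le_mul' ?_ le_rfl
    have h3 : ((R : ℝ≥0∞)) ^ (q / p) = ENNReal.ofReal ((R:ℝ) ^ (q / p)) := by
      rw [← ENNReal.ofReal_rpow_of_nonneg (by positivity) (by positivity)]
      simp
    rw [h3]
    calc ENNReal.ofReal ((R:ℝ) ^ (q / p)) ≤ ENNReal.ofReal (R' : ℝ) := ENNReal.ofReal_le_ofReal hR'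
      _ = R' := by simp

/-- bounded convolution by a positive function -/
def CB (p : ℝ) (U : G → ℝ≥0∞) (C : ℝ≥0∞) : Prop :=
  ∀ η, Nice η → ∑' g, (∑' h, U (g * h⁻¹) * η h) ^ p ≤ C * ∑' h, η h ^ p

open Classical in
lemma sum_ind (E : Finset G) (η : G → ℝ≥0∞) (g : G) :
    ∑' h, (if (g * h⁻¹)⁻¹ ∈ E then 1 else 0) * η h = T E η g := by
  rw [← (Equiv.mulRight g).tsum_eq]
  simp only [Equiv.coe_mulRight, T]
  rw [tsum_eq_sum (s := E)]
  · refine Finset.sum_congr rfl fun u hu => ?_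
    simp [hu]
  · intro u hu
    simp [hu]

open Classical in
lemma sum_ind' (E : Finset G) (η : G → ℝ≥0∞) (g : G) :
    ∑' h, (if g * h⁻¹ ∈ E then 1 else 0) * η h = T' E η g := by
  have := sum_ind (E.map (Equiv.inv G).toEmbedding) η g
  rw [T_inv] at this
  rw [← this]
  refine tsum_congr fun h => ?_
  congr 2
  simp

open Classical in
theorem glue {p : ℝ} (hp : 1 ≤ p) (H : ∀ R : ℕ, ∃ (E : Finset G) (K : ℝ≥0∞), 1 ≤ K ∧ K ≠ ∞ ∧
    BdS (T E) p K ∧ ¬ BdS (T' E) p (R * K)) :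
    ∃ U : G → ℝ≥0∞, (∀ g, U g ≠ ∞) ∧ CB p U 1 ∧ ∀ C, C ≠ ∞ → ¬ CB p (fun g => U g⁻¹) C := by
  have hp0 : 0 < p := by linarith
  obtain ⟨P, hP⟩ := exists_nat_ge p
  choose E K hK1 hK hE hE' using fun k : ℕ => H (k * 2 ^ ((k + 1) * P))
  let w : ℕ → ℝ≥0∞ := fun k => (2⁻¹ : ℝ≥0∞) ^ (k + 1)
  have hw : ∑' k, w k = 1 := by
    simp only [w]
    rw [ENNReal.tsum_geometric_add_one, ENNReal.one_sub_inv_two, inv_inv]
    exact ENNReal.inv_mul_cancel (by norm_num) (by norm_num)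
  let d : ℕ → ℝ≥0∞ := fun k => ((K k)⁻¹) ^ (1 / p)
  have hd : ∀ k, d k ^ p = (K k)⁻¹ := by
    intro k
    simp only [d]
    rw [← ENNReal.rpow_mul, one_div_mul_cancel hp0.ne', ENNReal.rpow_one]
  have hd1 : ∀ k, d k ≤ 1 := by
    intro k
    apply ENNReal.rpow_le_one (ENNReal.inv_le_one.mpr (hK1 k)) (by positivity)
  let U : G → ℝ≥0∞ := fun u => ∑' k, w k * d k * (if u⁻¹ ∈ E k then 1 else 0)
  have hU : ∀ g, U g ≠ ∞ := by
    intro g
    refine ne_top_of_le_ne_top ENNReal.one_ne_top ?_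
    rw [← hw]
    refine ENNReal.tsum_le_tsum fun k => ?_
    calc w k * d k * (if g⁻¹ ∈ E k then 1 else 0) ≤ w k * 1 * 1 := by
          refine mul_le_mul' (mul_le_mul' le_rfl (hd1 k)) ?_
          split_ifs <;> simp
      _ = w k := by simp
  refine ⟨U, hU, ?_, ?_⟩
  · intro η hη
    have e1 : ∀ g, ∑' h, U (g * h⁻¹) * η h = ∑' k, w k * (d k * T (E k) η g) := by
      intro g
      calc ∑' h, U (g * h⁻¹) * η h
          = ∑' h, ∑' k, w k * d k * ((if (g * h⁻¹)⁻¹ ∈ E k then 1 else 0) * η h) := by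
            refine tsum_congr fun h => ?_
            simp only [U]
            rw [← ENNReal.tsum_mul_right]
            refine tsum_congr fun k => ?_
            ring
        _ = ∑' k, ∑' h, w k * d k * ((if (g * h⁻¹)⁻¹ ∈ E k then 1 else 0) * η h) :=
            ENNReal.tsum_comm
        _ = _ := by
            refine tsum_congr fun k => ?_
            rw [ENNReal.tsum_mul_left, sum_ind, mul_assoc]
    calc ∑' g, (∑' h, U (g * h⁻¹) * η h) ^ p
        ≤ ∑' g, ∑' k, w k * (d k * T (E k) η g) ^ p := by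
          refine ENNReal.tsum_le_tsum fun g => ?_
          rw [e1]
          exact jensen_tsum hp w _ hw.le
      _ = ∑' k, w k * ((K k)⁻¹ * ∑' g, T (E k) η g ^ p) := by
          rw [ENNReal.tsum_comm]
          refine tsum_congr fun k => ?_
          rw [← ENNReal.tsum_mul_left, ← ENNReal.tsum_mul_left]
          refine tsum_congr fun g => ?_
          rw [ENNReal.mul_rpow_of_nonneg _ _ hp0.le, hd]
      _ ≤ ∑' k, w k * ∑' g, η g ^ p := by
          refine ENNReal.tsum_le_tsum fun k => mul_le_mul' le_rfl ?_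
          calc (K k)⁻¹ * ∑' g, T (E k) η g ^ p ≤ (K k)⁻¹ * (K k * ∑' g, η g ^ p) :=
                mul_le_mul' le_rfl (hE k η hη)
            _ = _ := by
                rw [← mul_assoc, ENNReal.inv_mul_cancel (by
                  have := hK1 k; intro h; rw [h] at this; simp at this) (hK k), one_mul]
      _ = _ := by rw [ENNReal.tsum_mul_right, hw]
  · intro C hC hCB
    obtain ⟨k, hk⟩ := ENNReal.exists_nat_gt hC
    apply hE' k
    have hK0 : K k ≠ 0 := by
      have := hK1 k; intro h; rw [h] at this; simp at this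
    intro η hη
    have h1 := hCB η hη
    have h2 : (w k * d k) ^ p * ∑' g, T' (E k) η g ^ p ≤ C * ∑' h, η h ^ p := by
      refine le_trans ?_ h1
      rw [← ENNReal.tsum_mul_left]
      refine ENNReal.tsum_le_tsum fun g => ?_
      rw [← ENNReal.mul_rpow_of_nonneg _ _ hp0.le]
      refine ENNReal.rpow_le_rpow ?_ hp0.le
      rw [← sum_ind', ← ENNReal.tsum_mul_left]
      refine ENNReal.tsum_le_tsum fun h => ?_
      rw [← mul_assoc]
      refine mul_le_mul' ?_ le_rfl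
      simp only [U]
      refine le_trans (le_of_eq ?_) (ENNReal.le_tsum k)
      simp
    have h3 : (w k * d k) ^ p = (w k) ^ p * (K k)⁻¹ := by
      rw [ENNReal.mul_rpow_of_nonneg _ _ hp0.le, hd]
    rw [h3] at h2
    -- multiply by (w k)^{-p} * K k
    have hwk : w k ≠ 0 := by simp [w]
    have hwk' : w k ≠ ∞ := by simp [w]
    have hwp0 : (w k) ^ p ≠ 0 := by simp [ENNReal.rpow_eq_zero_iff, hwk, hwk']
    have hwpt : (w k) ^ p ≠ ∞ := ENNReal.rpow_ne_top_of_nonneg hp0.le hwk'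
    have h4 : ∑' g, T' (E k) η g ^ p =
        (((w k) ^ p)⁻¹ * K k) * (((w k) ^ p * (K k)⁻¹) * ∑' g, T' (E k) η g ^ p) := by
      calc ∑' g, T' (E k) η g ^ p
          = (((w k) ^ p)⁻¹ * (w k) ^ p) * (K k * (K k)⁻¹) * ∑' g, T' (E k) η g ^ p := by
            rw [ENNReal.inv_mul_cancel hwp0 hwpt, ENNReal.mul_inv_cancel hK0 (hK k)]; simp
        _ = _ := by ring
    rw [h4]
    calc (((w k) ^ p)⁻¹ * K k) * (((w k) ^ p * (K k)⁻¹) * ∑' g, T' (E k) η g ^ p)
        ≤ (((w k) ^ p)⁻¹ * K k) * (C * ∑' h, η h ^ p) := mul_le_mul' le_rfl h2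
      _ = (C * ((w k) ^ p)⁻¹) * K k * ∑' h, η h ^ p := by ring
      _ ≤ _ := by
        refine mul_le_mul' (mul_le_mul' ?_ le_rfl) le_rfl
        push_cast
        refine mul_le_mul' hk.le ?_
        have h5 : ((w k) ^ p)⁻¹ = ((2:ℝ≥0∞) ^ (k + 1)) ^ p := by
          simp only [w]
          rw [← ENNReal.inv_rpow, ENNReal.inv_pow, inv_inv]
        rw [h5]
        calc ((2:ℝ≥0∞) ^ (k + 1)) ^ p ≤ ((2:ℝ≥0∞) ^ (k + 1)) ^ (P : ℝ) := by
              refine ENNReal.rpow_le_rpow_of_exponent_le ?_ hP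
              exact one_le_pow₀ (by norm_num)
          _ = _ := by rw [ENNReal.rpow_natCast, ← pow_mul]

end Pool.Agent.Y162.CV
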