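import Mathlib

/-!
Ping-pong data in groups containing a non-abelian free group.
-/

set_option autoImplicit false

namespace Pool.Agent.Y162.CV

open FreeGroup

/-- Ping-pong data: the points `x j * (a ^ i * y)` lie in `X j` except for at most one pair `(i, j)`. -/
structure PP (G : Type) [Group G] where
  a : G
  x : ℕ → G
  X : ℕ → Set G
  z : G
  disj : ∀ j j' h, h ∈ X j → h ∈ X j' → j = j'
  hz : ∀ j, z ∉ X j
  uniq : ∀ (y : G) (j j' i i' : ℕ), x j * (a ^ i * y) ∉ X j → x j' * (a ^ i' * y) ∉ X j' →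
    i = i' ∧ j = j'

abbrev F2 := FreeGroup (Fin 2)

def ga : F2 := FreeGroup.of 0
def gb : F2 := FreeGroup.of 1

abbrev Sa : Set F2 := startsWith ((0 : Fin 2), true)
abbrev Sa' : Set F2 := startsWith ((0 : Fin 2), false)
abbrev Sb : Set F2 := startsWith ((1 : Fin 2), true)
abbrev Sb' : Set F2 := startsWith ((1 : Fin 2), false)

lemma not_mem_of_mem {v w : Fin 2 × Bool} (h : v ≠ w) {g : F2} (hg : g ∈ startsWith v) :
    g ∉ startsWith w := by
  intro h2
  exact Set.disjoint_left.mp (startsWith.disjoint_iff_ne.mpr h) hg h2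

lemma a_mul {g : F2} (h : g ∉ Sa') : ga * g ∈ Sa :=
  startsWith_mk_mul (w := ((0 : Fin 2), true)) g h

lemma b_mul {g : F2} (h : g ∉ Sb') : gb * g ∈ Sb :=
  startsWith_mk_mul (w := ((1 : Fin 2), true)) g h

lemma b_inv_mul {g : F2} (h : g ∉ Sb) : gb⁻¹ * g ∈ Sb' :=
  startsWith_mk_mul (w := ((1 : Fin 2), false)) g h

lemma a_pow {g : F2} (h : g ∉ Sa') (d : ℕ) : ga ^ (d + 1) * g ∈ Sa := by
  induction d with
  | zero => simpa using a_mul h
  | succ d ih =>
    rw [pow_succ', mul_assoc]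
    exact a_mul (not_mem_of_mem (by decide) ih)

lemma b_pow {g : F2} (h : g ∉ Sb') (d : ℕ) : gb ^ (d + 1) * g ∈ Sb := by
  induction d with
  | zero => simpa using b_mul h
  | succ d ih =>
    rw [pow_succ', mul_assoc]
    exact b_mul (not_mem_of_mem (by decide) ih)

lemma b_inv_pow {g : F2} (h : g ∉ Sb) (d : ℕ) : (gb ^ (d + 1))⁻¹ * g ∈ Sb' := by
  induction d with
  | zero => simpa using b_inv_mul h
  | succ d ih =>
    rw [pow_succ, mul_inv_rev, mul_assoc]
    exact b_inv_mul (not_mem_of_mem (by decide) ih)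

def xj (j : ℕ) : F2 := gb ^ (j + 1) * ga * (gb ^ (j + 1))⁻¹

def Xj (j : ℕ) : Set F2 := {g | (gb ^ (j + 1))⁻¹ * g ∈ Sa}

lemma sub_case {v : Fin 2 × Bool} (hv : v ≠ ((1 : Fin 2), true)) (hv' : v ≠ ((1 : Fin 2), false))
    {j j' : ℕ} {h : F2} (h1 : (gb ^ (j + 1))⁻¹ * h ∈ startsWith v)
    (h2 : (gb ^ (j' + 1))⁻¹ * h ∈ startsWith v) : j = j' := by
  wlog hlt : j < j' generalizing j j'
  · rcases lt_trichotomy j j' with h3 | h3 | h3
    · exact this h1 h2 h3
    · exact h3
    · exact (this h2 h1 h3).symm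
  exfalso
  obtain ⟨d, rfl⟩ := Nat.exists_eq_add_of_lt hlt
  have e : (gb ^ (j + d + 1 + 1))⁻¹ * h = (gb ^ (d + 1))⁻¹ * ((gb ^ (j + 1))⁻¹ * h) := by
    rw [← mul_assoc, ← mul_inv_rev, ← pow_add]
    congr 3
    ring
  rw [e] at h2
  have h4 := b_inv_pow (not_mem_of_mem hv h1) d
  exact not_mem_of_mem (Ne.symm hv') h4 h2

lemma Yj_sub {j : ℕ} {y : F2} (h : xj j * y ∉ Xj j) : (gb ^ (j + 1))⁻¹ * y ∈ Sa' := by
  by_contra h2
  apply h
  have := a_mul h2
  simp only [Xj, xj, Set.mem_setOf_eq]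
  convert this using 1
  group

def ppF : PP F2 where
  a := ga
  x := xj
  X := Xj
  z := 1
  disj := fun j j' h h1 h2 => sub_case (by decide) (by decide) h1 h2
  hz := fun j h => by
    have h1 : (gb ^ (j + 1))⁻¹ * (1 : F2) ∈ Sb' := b_inv_pow (by
      intro h; exact startsWith.ne_one _ h rfl) j
    exact not_mem_of_mem (by decide) h1 h
  uniq := fun y j j' i i' h1 h2 => by
    wlog hle : i ≤ i' generalizing i i' j j'
    · have := this j' j i' i h2 h1 (by omega)
      exact ⟨this.1.symm, this.2.symm⟩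
    have h1' := Yj_sub h1
    have h2' := Yj_sub h2
    rcases Nat.eq_or_lt_of_le hle with h3 | h3
    · subst h3
      exact ⟨rfl, sub_case (by decide) (by decide) h1' h2'⟩
    · exfalso
      obtain ⟨d, rfl⟩ := Nat.exists_eq_add_of_lt h3
      have e : ga ^ (i + d + 1) * y = ga ^ (d + 1) * (ga ^ i * y) := by
        rw [← mul_assoc, ← pow_add]
        congr 2
        ring
      rw [e] at h2'
      have h4 : ga ^ i * y ∈ Sb := by
        have := b_pow (not_mem_of_mem (by decide) h1' : (gb ^ (j + 1))⁻¹ * (ga ^ i * y) ∉ Sb') j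
        simpa [mul_assoc] using this
      have h5 := a_pow (not_mem_of_mem (by decide) h4 : ga ^ i * y ∉ Sa') d
      have h6 := b_inv_pow (not_mem_of_mem (by decide) h5 : ga ^ (d + 1) * (ga ^ i * y) ∉ Sb) j'
      exact not_mem_of_mem (by decide) h6 h2'

/-- an equivariant retraction of `G` onto a subgroup -/
lemma exists_retract {F G : Type} [Group F] [Group G] (φ : F →* G) (hφ : Function.Injective φ) :
    ∃ ρ : G → F, (∀ h g, ρ (φ h * g) = h * ρ g) ∧ ∃ z, ρ z = 1 := by
  classical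
  let s : Setoid G := QuotientGroup.rightRel φ.range
  have hs : ∀ g : G, ∃ h : F, g = φ h * (Quotient.out (Quotient.mk s g)) := by
    intro g
    have h1 : Setoid.r (Quotient.out (Quotient.mk s g)) g := Quotient.exact (Quotient.out_eq _)
    have h2 := (QuotientGroup.rightRel_apply (s := φ.range)).mp h1
    obtain ⟨h, hh⟩ := h2
    exact ⟨h, by rw [hh]; group⟩
  choose ρ hρ using hs
  have key : ∀ h g, ρ (φ h * g) = h * ρ g := by
    intro h g
    apply hφ
    have e : Quotient.mk s (φ h * g) = Quotient.mk s g := by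
      apply Quotient.sound
      apply (QuotientGroup.rightRel_apply (s := φ.range)).mpr
      exact ⟨h⁻¹, by simp⟩
    have h1 := hρ (φ h * g)
    rw [e] at h1
    have h2 := hρ g
    have h3 : φ h * (φ (ρ g) * Quotient.out (Quotient.mk s g)) =
        φ (ρ (φ h * g)) * Quotient.out (Quotient.mk s g) := by
      rw [← h2]; exact h1
    rw [_root_.map_mul]
    rw [← mul_assoc] at h3
    exact (mul_right_cancel h3).symm
  refine ⟨ρ, key, φ (ρ 1)⁻¹ * 1, ?_⟩
  rw [key]; simp

/-- ping-pong data in a group containing a free group -/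
lemma exists_PP (G : Type) [Group G] (h : ∃ φ : F2 →* G, Function.Injective φ) : Nonempty (PP G) := by
  obtain ⟨φ, hφ⟩ := h
  obtain ⟨ρ, hρ, z, hz⟩ := exists_retract φ hφ
  refine ⟨⟨φ ppF.a, fun j => φ (ppF.x j), fun j => ρ ⁻¹' (ppF.X j), z, ?_, ?_, ?_⟩⟩
  · intro j j' h h1 h2
    exact ppF.disj j j' _ h1 h2
  · intro j
    simp only [Set.mem_preimage, hz]
    exact ppF.hz j
  · intro y j j' i i' h1 h2
    apply ppF.uniq (ρ y) j j' i i'
    · simpa only [Set.mem_preimage, ← map_pow, hρ] using h1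
    · simpa only [Set.mem_preimage, ← map_pow, hρ] using h2

end Pool.Agent.Y162.CV
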